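import Pool.Agent.Helper75.PZ.Stmts

set_option autoImplicit false

universe u

open Pool.Agent.Helper75.PX Pool.Agent.Helper75.PZ

namespace Pool.Agent.Helper9.PZ

theorem nzk_tors (a : G2) (h : a + a + a = 0) : a = 0 := by
  have h1 : n1 a = 0 := by
    have h2 := congrArg n1 h
    have h3 : n1 (a + a + a) = n1 a + n1 a + n1 a := rfl
    have h4 : n1 (0 : G2) = 0 := rfl
    rw [h3, h4] at h2
    omega
  have h5 : n2 a = 0 := by
    have h2 := congrArg n2 h
    have h3 : n2 (a + a + a) = n2 a + n2 a + n2 a := rfl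
    have h4 : n2 (0 : G2) = 0 := rfl
    rw [h3, h4] at h2
    omega
  have h6 : ofLex a = (0, 0) := Prod.ext h1 h5
  exact h6

theorem st_NZK : ST_NZK.{u} := by
  intro F K A M _ _ _ _ _ _ _ _ σ g c hF halg _ hS ζ hζ
  have hinj : Function.Injective (algebraMap K A) := (algebraMap K A).injective
  have hζ0 : ζ ≠ 0 := by
    intro h
    rw [h] at hζ
    simp at hζ
  obtain ⟨x, hx⟩ : ∃ x : A, x = algebraMap K A ζ := ⟨_, rfl⟩
  have hx0 : x ≠ 0 := by
    rw [hx]
    exact (map_ne_zero_iff _ hinj).2 hζ0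
  have hsum : x * x + x + 1 = 0 := by
    have h1 := congrArg (algebraMap K A) hζ
    rw [map_add, map_add, map_pow, map_one, map_zero, ← hx, pow_two] at h1
    exact h1
  have hcube : x * x * x = 1 := by
    have h1 : ζ * ζ * ζ = 1 := by linear_combination (ζ - 1) * hζ
    have h2 := congrArg (algebraMap K A) h1
    rw [map_mul, map_mul, map_one, ← hx] at h2
    exact h2
  have hxx0 : x * x ≠ 0 := by
    rw [hx, ← map_mul]
    exact (map_ne_zero_iff _ hinj).2 (mul_ne_zero hζ0 hζ0)
  have h10 : (1 : A) ≠ 0 := one_ne_zero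
  have hf1 := hS.fs 1 one_ne_zero
  rw [map_one, map_one, map_one] at hf1
  have hfm := hS.fs (-1) (neg_ne_zero.2 one_ne_zero)
  rw [map_neg, map_neg, map_one, map_one] at hfm
  have hgx : g x = 0 := by
    apply nzk_tors
    have h1 := hS.gmul (x * x) x hxx0 hx0
    rw [hS.gmul x x hx0 hx0, hcube, hf1.1] at h1
    exact h1.symm
  have hgxx : g (x * x) = 0 := by
    rw [hS.gmul x x hx0 hx0, hgx, add_zero]
  have hcxx : c (x * x) = c x * c x := by
    rw [hS.cmul x x hx0 hx0, hgx]
    have h1 : n1 (0 : G2) = 0 := rfl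
    rw [h1]
    simp
  have hm : c x * c x + c x + 1 = 0 := by
    by_cases hc : c (x * x) + c x = 0
    · rcases hS.addz (x * x) x hxx0 hx0 (by rw [hgxx, hgx]) hc with h | h
      · rw [h, zero_add] at hsum
        exact absurd hsum h10
      · have h2 : x * x + x = -1 := eq_neg_of_add_eq_zero_left hsum
        rw [h2, hfm.1, hgxx] at h
        exact absurd h (lt_irrefl _)
    · obtain ⟨h1, h2, h3⟩ := hS.addeq (x * x) x hxx0 hx0 (by rw [hgxx, hgx]) hc
      by_contra hne
      have h4 : c (x * x + x) + c 1 ≠ 0 := by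
        rw [h3, hcxx, hf1.2]
        exact hne
      obtain ⟨h5, -, -⟩ := hS.addeq (x * x + x) 1 h1 h10 (by rw [h2, hgxx, hf1.1]) h4
      exact h5 hsum
  have hal : IsAlgebraic F (c x) := by
    refine ⟨Polynomial.X ^ 2 + Polynomial.X + 1, ?_, ?_⟩
    · intro h
      have h1 := congrArg (Polynomial.eval 0) h
      simp at h1
    · rw [map_add, map_add, map_pow, Polynomial.aeval_X, map_one, pow_two]
      exact hm
  obtain ⟨r, hr⟩ := halg _ hal
  apply hF r
  have h7 : algebraMap F M (r ^ 2 + r + 1) = 0 := by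
    rw [map_add, map_add, map_pow, map_one, ← hr, pow_two]
    exact hm
  exact (map_eq_zero_iff _ (algebraMap F M).injective).1 h7

end Pool.Agent.Helper9.PZ
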