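import Pool.Agent.Helper75.PZ.Stmts2

set_option autoImplicit false

universe u

namespace Pool.Agent.Helper9.PZ

open Pool.Agent.Helper75.PZ Polynomial IntermediateField

theorem st_AC : ST_AC.{u} := by
  intro F _ m hm
  by_contra h
  push Not at h
  refine (RatFunc.transcendental_of_ne_C m ?_) hm
  rintro ⟨c, rfl⟩
  exact h c (by simp [RatFunc.algebraMap_eq_C])

/-- an endomorphism of the rational function field fixing the variable is the identity -/
theorem id_of_X {F : Type u} [Field F] (τ : RatFunc F →ₐ[F] RatFunc F)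
    (h : τ RatFunc.X = RatFunc.X) (m : RatFunc F) : τ m = m := by
  have hp : ∀ p : F[X], τ (algebraMap F[X] (RatFunc F) p) = algebraMap F[X] (RatFunc F) p := by
    intro p
    have e : τ.comp (IsScalarTower.toAlgHom F F[X] (RatFunc F)) =
        IsScalarTower.toAlgHom F F[X] (RatFunc F) := by
      apply Polynomial.algHom_ext
      simp [h]
    have := congrArg (fun φ => φ p) e
    simpa using this
  rw [← RatFunc.num_div_denom m, map_div₀, hp, hp]

theorem st_SG : ST_SG.{u} := by
  intro F _
  have hX : Transcendental F (RatFunc.X : RatFunc F) := RatFunc.transcendental_X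
  have hX0 : (RatFunc.X : RatFunc F) ≠ 0 := RatFunc.X_ne_zero
  have hX1 : (1 + RatFunc.X : RatFunc F) ≠ 0 := by
    intro h
    apply hX
    have : (RatFunc.X : RatFunc F) = - 1 := by linear_combination h
    rw [this]
    exact isAlgebraic_one.neg
  set t : RatFunc F := -(1 + RatFunc.X)⁻¹ with ht
  have htr : Transcendental F t := by
    intro h
    apply hX
    have h1 : IsAlgebraic F (1 + RatFunc.X : RatFunc F) := by
      have h2 := h.neg.inv
      have : (-t)⁻¹ = (1 + RatFunc.X : RatFunc F) := by
        rw [ht]; simp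
      rwa [this] at h2
    have h3 := h1.sub (isAlgebraic_one (R := F) (A := RatFunc F))
    simpa using h3
  have ht0 : t ≠ 0 := by
    rw [ht]
    exact neg_ne_zero.mpr (inv_ne_zero hX1)
  let s : RatFunc F →ₐ[F] RatFunc F :=
    (F⟮t⟯.val).comp (RatFunc.algEquivOfTranscendental t htr).toAlgHom
  have hs : s RatFunc.X = t := by
    simp [s]
  have h1t : 1 + t = RatFunc.X * (1 + RatFunc.X)⁻¹ := by
    rw [ht]
    field_simp
    ring
  have h1t0 : 1 + t ≠ 0 := by
    rw [h1t]
    exact mul_ne_zero hX0 (inv_ne_zero hX1)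
  have hst : s t = -(1 + t)⁻¹ := by
    conv_lhs => rw [ht]
    rw [map_neg, map_inv₀, map_add, map_one, hs]
  have hsst : s (s t) = RatFunc.X := by
    rw [hst, map_neg, map_inv₀, map_add, map_one, hst, h1t]
    field_simp
    ring
  have h3 : ∀ m, s (s (s m)) = m := by
    intro m
    have := id_of_X (s.comp (s.comp s)) (by
      simp only [AlgHom.comp_apply]
      rw [hs, hsst]) m
    simpa using this
  let σ : RatFunc F ≃ₐ[F] RatFunc F := AlgEquiv.ofAlgHom s (s.comp s)
    (by ext m; exact h3 m) (by ext m; exact h3 m)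
  refine ⟨σ, fun m => h3 m, RatFunc.X, ?_⟩
  intro h
  have h' : t = RatFunc.X := by
    rw [← hs]; exact h
  apply hX
  refine ⟨Polynomial.X ^ 2 + Polynomial.X + 1, ?_, ?_⟩
  · intro h0
    have := congrArg (fun p => Polynomial.coeff p 2) h0
    simp [Polynomial.coeff_one, Polynomial.coeff_X] at this
  · have h4 : t * (1 + RatFunc.X) = -1 := by
      rw [ht]
      field_simp
    rw [h'] at h4
    simp only [map_add, map_pow, Polynomial.aeval_X, map_one]
    linear_combination h4

end Pool.Agent.Helper9.PZ
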